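import Pool.Agent.R71.Link

set_option autoImplicit false
set_option linter.unusedSectionVars false

/-! Deterministic part: if all 2-colourings of a graph have many monochromatic pairs of edges at
vertices, then the graph without the edges `φ 0 φ 3` of the copies `φ` of `H₀` has a monochromatic
triangle in every 2-colouring. -/

namespace Pool.Agent.R71.Count

open Finset Rand Kernel Link

variable {V : Type*} [Fintype V] [DecidableEq V]

/-- the adjacency indicator -/
noncomputable def i2 (ω : Sym2 V → Bool) (x y : V) : ℝ := if x ≠ y ∧ ω s(x, y) = true then 1 else 0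

theorem i2_comm (ω : Sym2 V → Bool) (x y : V) : i2 ω x y = i2 ω y x := by
  unfold i2; rw [Sym2.eq_swap]; simp only [ne_comm]

theorem i2_nonneg (ω : Sym2 V → Bool) (x y : V) : 0 ≤ i2 ω x y := by
  unfold i2; split_ifs <;> norm_num

theorem i2_le_one (ω : Sym2 V → Bool) (x y : V) : i2 ω x y ≤ 1 := by
  unfold i2; split_ifs <;> norm_num

theorem i2_self (ω : Sym2 V → Bool) (x : V) : i2 ω x x = 0 := by
  unfold i2; simp

theorem i2_le_ind (ω : Sym2 V → Bool) (x y : V) : i2 ω x y ≤ ind (ω s(x, y)) := by
  unfold i2 ind; split_ifs <;> simp_all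

theorem i2_of_ne (ω : Sym2 V → Bool) {x y : V} (h : x ≠ y) : i2 ω x y = ind (ω s(x, y)) := by
  unfold i2 ind; simp [h]

/-- number of ordered triangles -/
noncomputable def T (ω : Sym2 V → Bool) : ℝ := ∑ x, ∑ y, ∑ z, i2 ω x y * i2 ω y z * i2 ω x z

/-- edges of `H₀` -/
def L5 : Fin 7 → Fin 5 × Fin 5 := ![(0, 2), (0, 3), (0, 4), (1, 2), (1, 3), (1, 4), (2, 4)]

/-- the indicator that the edges of `H₀` are present -/
noncomputable def hh (ω : Sym2 V → Bool) (φ : Fin 5 → V) : ℝ :=
  ∏ j, ind (ω s(φ (L5 j).1, φ (L5 j).2))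

theorem hh_nonneg (ω : Sym2 V → Bool) (φ : Fin 5 → V) : 0 ≤ hh ω φ :=
  Finset.prod_nonneg fun _ _ => ind_nonneg _

open Classical in
/-- copies of `H₀` with a triangle on the edge `03` -/
noncomputable def Dd (ω : Sym2 V → Bool) : ℝ :=
  ∑ φ : Fin 5 → V, if Function.Injective φ then
    hh ω φ * ∑ z, i2 ω (φ 0) z * i2 ω (φ 3) z else 0

/-- deleted edges -/
def Del (ω : Sym2 V → Bool) (x y : V) : Prop :=
  ∃ φ : Fin 5 → V, Function.Injective φ ∧
    (∀ j, ω s(φ (L5 j).1, φ (L5 j).2) = true) ∧ s(φ 0, φ 3) = s(x, y)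

theorem Del_comm (ω : Sym2 V → Bool) (x y : V) : Del ω x y ↔ Del ω y x := by
  unfold Del; rw [Sym2.eq_swap]

/-- the graph after the deletion -/
def G' (ω : Sym2 V → Bool) : SimpleGraph V where
  Adj x y := x ≠ y ∧ ω s(x, y) = true ∧ ¬ Del ω x y
  symm := ⟨fun x y h => ⟨h.1.symm, by rw [Sym2.eq_swap]; exact h.2.1, by rw [Del_comm]; exact h.2.2⟩⟩
  loopless := ⟨fun x h => h.1 rfl⟩

/-- the graph has no copy of `H₀` -/
theorem G'_free (ω : Sym2 V → Bool) (φ : Fin 5 → V) (hφ : Function.Injective φ)
    (h : ∀ j, (G' ω).Adj (φ (L5 j).1) (φ (L5 j).2)) : False := by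
  have h1 := (h 1).2.2
  apply h1
  exact ⟨φ, hφ, fun j => (h j).2.1, rfl⟩

theorem sum_M (ω : Sym2 V → Bool) (c : V → V → Bool) (v : V) :
    ∑ y, ∑ z, i2 ω v y * i2 ω v z * i2 ω y z * (if c v y = c v z then 1 else 0) =
      2 * M ω (nb ω v) ((nb ω v).filter fun y => c v y = true) := by
  unfold M
  rw [← sum_Q (nb ω v) _ (fun e => ind (ω e)), Finset.sum_filter]
  rw [← Finset.sum_product' univ univ (fun y z => i2 ω v y * i2 ω v z * i2 ω y z *
    (if c v y = c v z then 1 else 0))]
  have hsub : (nb ω v).offDiag ⊆ univ ×ˢ univ := by intro q _; simp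
  rw [← Finset.sum_subset hsub]
  · refine Finset.sum_congr rfl fun q hq => ?_
    simp only [Finset.mem_offDiag, nb, Finset.mem_filter, Finset.mem_univ, true_and] at hq
    obtain ⟨⟨h1, h2⟩, ⟨h3, h4⟩, h5⟩ := hq
    have e1 : i2 ω v q.1 = 1 := by unfold i2; rw [if_pos ⟨h1.symm, h2⟩]
    have e2 : i2 ω v q.2 = 1 := by unfold i2; rw [if_pos ⟨h3.symm, h4⟩]
    rw [e1, e2, i2_of_ne ω h5]
    have e3 : (q.1 ∈ (nb ω v).filter (fun y => c v y = true) ↔
        q.2 ∈ (nb ω v).filter (fun y => c v y = true)) ↔ c v q.1 = c v q.2 := by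
      simp only [nb, Finset.mem_filter, Finset.mem_univ, true_and, h1, h2, h3, h4, ne_eq,
        not_false_eq_true]
      cases c v q.1 <;> cases c v q.2 <;> simp
    by_cases hc : c v q.1 = c v q.2
    · rw [if_pos hc, if_pos (e3.2 hc)]; ring
    · rw [if_neg hc, if_neg (fun h => hc (e3.1 h))]; ring
  · intro q _ hq
    simp only [Finset.mem_offDiag, nb, Finset.mem_filter, Finset.mem_univ, true_and, not_and] at hq
    unfold i2
    by_cases h1 : v ≠ q.1 ∧ ω s(v, q.1) = true
    · by_cases h2 : v ≠ q.2 ∧ ω s(v, q.2) = true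
      · have h3 := hq ⟨h1.1.symm, h1.2⟩ ⟨h2.1.symm, h2.2⟩
        rw [ne_eq, not_not] at h3
        simp [h3]
      · simp [h2]
    · simp [h1]

/-- the deterministic inequality -/
theorem key (ω : Sym2 V → Bool) (c : V → V → Bool) (hc : ∀ x y, c x y = c y x)
    (hno : ∀ x y z, (G' ω).Adj x y → (G' ω).Adj y z → (G' ω).Adj x z →
      ¬ (c x y = c y z ∧ c y z = c x z)) :
    2 * ∑ v, M ω (nb ω v) ((nb ω v).filter fun y => c v y = true) ≤ T ω / 3 + 4 * Dd ω := by
  classical
  set t : V → V → V → ℝ := fun x y z => i2 ω x y * i2 ω y z * i2 ω x z with ht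
  have ht0 : ∀ x y z, 0 ≤ t x y z := fun x y z =>
    mul_nonneg (mul_nonneg (i2_nonneg _ _ _) (i2_nonneg _ _ _)) (i2_nonneg _ _ _)
  -- symmetries of `t`
  have t1 : ∀ x y z, t x y z = t y x z := fun x y z => by
    simp only [ht]; rw [i2_comm ω x y]; ring
  have t2 : ∀ x y z, t x y z = t x z y := fun x y z => by
    simp only [ht]; rw [i2_comm ω y z]; ring
  set d : V → V → ℝ := fun x y => if Del ω x y then 1 else 0 with hd
  have d_comm : ∀ x y, d x y = d y x := fun x y => by simp only [hd, Del_comm ω x y]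
  set K : ℝ := ∑ x, ∑ y, ∑ z, t x y z * (if c x y = c x z then 1 else 0) with hK
  have hK1 : 2 * ∑ v, M ω (nb ω v) ((nb ω v).filter fun y => c v y = true) = K := by
    rw [Finset.mul_sum]
    simp_rw [← sum_M]
    rw [hK]
    refine Finset.sum_congr rfl fun x _ => Finset.sum_congr rfl fun y _ =>
      Finset.sum_congr rfl fun z _ => ?_
    simp only [ht]; ring
  -- the other two forms of `K`
  have hK2 : K = ∑ x, ∑ y, ∑ z, t x y z * (if c x y = c y z then 1 else 0) := by
    rw [hK, Finset.sum_comm]
    refine Finset.sum_congr rfl fun x _ => Finset.sum_congr rfl fun y _ =>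
      Finset.sum_congr rfl fun z _ => ?_
    rw [t1, hc y x]
  have hK3 : K = ∑ x, ∑ y, ∑ z, t x y z * (if c y z = c x z then 1 else 0) := by
    rw [hK2]
    refine Finset.sum_congr rfl fun x _ => ?_
    rw [Finset.sum_comm]
    refine Finset.sum_congr rfl fun y _ => Finset.sum_congr rfl fun z _ => ?_
    rw [t2, hc z y]
    simp only [eq_comm]
  set M3 : ℝ := ∑ x, ∑ y, ∑ z, t x y z * (if c x y = c y z ∧ c y z = c x z then 1 else 0) with hM3
  have h3K : 3 * K = T ω + 2 * M3 := by
    have h1 : 3 * K = K + K + K := by ring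
    rw [h1]
    nth_rw 2 [hK2]
    nth_rw 2 [hK3]
    rw [hK, hM3, T, Finset.mul_sum, ← Finset.sum_add_distrib, ← Finset.sum_add_distrib,
      ← Finset.sum_add_distrib]
    refine Finset.sum_congr rfl fun x _ => ?_
    rw [Finset.mul_sum, ← Finset.sum_add_distrib, ← Finset.sum_add_distrib,
      ← Finset.sum_add_distrib]
    refine Finset.sum_congr rfl fun y _ => ?_
    rw [Finset.mul_sum, ← Finset.sum_add_distrib, ← Finset.sum_add_distrib,
      ← Finset.sum_add_distrib]
    refine Finset.sum_congr rfl fun z _ => ?_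
    change _ = t x y z + _
    cases c x y <;> cases c y z <;> cases c x z <;> simp <;> ring
  -- monochromatic triangles contain deleted edges
  have hM3le : M3 ≤ 3 * ∑ x, ∑ y, ∑ z, t x y z * d x y := by
    have h1 : M3 ≤ ∑ x, ∑ y, ∑ z, t x y z * (d x y + d y z + d x z) := by
      refine Finset.sum_le_sum fun x _ => Finset.sum_le_sum fun y _ =>
        Finset.sum_le_sum fun z _ => ?_
      by_cases hm : c x y = c y z ∧ c y z = c x z
      · rw [if_pos hm, mul_one]
        by_cases h0 : t x y z = 0
        · rw [h0, zero_mul]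
        · have hxy : x ≠ y ∧ ω s(x, y) = true := by
            by_contra h
            apply h0; simp only [ht]; unfold i2; rw [if_neg h]; ring
          have hyz : y ≠ z ∧ ω s(y, z) = true := by
            by_contra h
            apply h0; simp only [ht]; unfold i2; rw [if_neg h]; ring
          have hxz : x ≠ z ∧ ω s(x, z) = true := by
            by_contra h
            apply h0; simp only [ht]; unfold i2; rw [if_neg h]; ring
          have hd0 : ∀ a b, 0 ≤ d a b := fun a b => by
            simp only [hd]; split_ifs <;> norm_num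
          have hd1 : 1 ≤ d x y + d y z + d x z := by
            by_cases h1 : Del ω x y
            · have : d x y = 1 := by simp only [hd]; rw [if_pos h1]
              linarith [hd0 y z, hd0 x z]
            · by_cases h2 : Del ω y z
              · have : d y z = 1 := by simp only [hd]; rw [if_pos h2]
                linarith [hd0 x y, hd0 x z]
              · by_cases h3 : Del ω x z
                · have : d x z = 1 := by simp only [hd]; rw [if_pos h3]
                  linarith [hd0 x y, hd0 y z]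
                · exact absurd hm (hno x y z ⟨hxy.1, hxy.2, h1⟩ ⟨hyz.1, hyz.2, h2⟩
                    ⟨hxz.1, hxz.2, h3⟩)
          nlinarith [ht0 x y z]
      · rw [if_neg hm, mul_zero]
        refine mul_nonneg (ht0 x y z) ?_
        simp only [hd]
        split_ifs <;> norm_num
    have h2 : ∑ x, ∑ y, ∑ z, t x y z * (d x y + d y z + d x z) =
        (∑ x, ∑ y, ∑ z, t x y z * d x y) + (∑ x, ∑ y, ∑ z, t x y z * d y z) +
          ∑ x, ∑ y, ∑ z, t x y z * d x z := by
      rw [← Finset.sum_add_distrib, ← Finset.sum_add_distrib]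
      refine Finset.sum_congr rfl fun x _ => ?_
      rw [← Finset.sum_add_distrib, ← Finset.sum_add_distrib]
      refine Finset.sum_congr rfl fun y _ => ?_
      rw [← Finset.sum_add_distrib, ← Finset.sum_add_distrib]
      refine Finset.sum_congr rfl fun z _ => ?_
      ring
    have h3 : ∑ x, ∑ y, ∑ z, t x y z * d x z = ∑ x, ∑ y, ∑ z, t x y z * d x y := by
      refine Finset.sum_congr rfl fun x _ => ?_
      rw [Finset.sum_comm]
      refine Finset.sum_congr rfl fun y _ => Finset.sum_congr rfl fun z _ => ?_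
      rw [t2]
    have h4 : ∑ x, ∑ y, ∑ z, t x y z * d y z = ∑ x, ∑ y, ∑ z, t x y z * d x z := by
      rw [Finset.sum_comm]
      refine Finset.sum_congr rfl fun x _ => Finset.sum_congr rfl fun y _ =>
        Finset.sum_congr rfl fun z _ => ?_
      rw [t1]
    rw [h2, h4, h3] at h1
    linarith
  -- deleted edges come from copies of `H₀`
  have hdel : ∑ x, ∑ y, ∑ z, t x y z * d x y ≤ 2 * Dd ω := by
    have h1 : ∀ x y, d x y ≤ ∑ φ : Fin 5 → V, if Function.Injective φ then
        hh ω φ * ((if φ 0 = x ∧ φ 3 = y then 1 else 0) + if φ 0 = y ∧ φ 3 = x then 1 else 0)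
        else 0 := by
      intro x y
      have hnn : ∀ φ : Fin 5 → V, (0 : ℝ) ≤ if Function.Injective φ then
        hh ω φ * ((if φ 0 = x ∧ φ 3 = y then 1 else 0) + if φ 0 = y ∧ φ 3 = x then 1 else 0)
        else 0 := by
        intro φ
        split_ifs <;> nlinarith [hh_nonneg ω φ]
      simp only [hd]
      split_ifs with hD
      · obtain ⟨φ, hφ, hφ2, hφ3⟩ := hD
        refine le_trans ?_ (Finset.single_le_sum (fun φ _ => hnn φ) (Finset.mem_univ φ))
        have e1 : hh ω φ = 1 := by
          unfold hh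
          exact Finset.prod_eq_one fun j _ => by rw [hφ2 j]; rfl
        simp only [hφ, if_true, e1, one_mul]
        rw [Sym2.eq_iff] at hφ3
        rcases hφ3 with h | h
        · rw [if_pos h]
          split_ifs <;> norm_num
        · rw [if_pos h]
          split_ifs <;> norm_num
      · exact Finset.sum_nonneg fun φ _ => hnn φ
    have h2 : ∑ x, ∑ y, ∑ z, t x y z * d x y ≤ ∑ x, ∑ y, ∑ z, t x y z *
        ∑ φ : Fin 5 → V, if Function.Injective φ then
        hh ω φ * ((if φ 0 = x ∧ φ 3 = y then 1 else 0) + if φ 0 = y ∧ φ 3 = x then 1 else 0)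
        else 0 :=
      Finset.sum_le_sum fun x _ => Finset.sum_le_sum fun y _ => Finset.sum_le_sum fun z _ =>
        mul_le_mul_of_nonneg_left (h1 x y) (ht0 x y z)
    refine h2.trans ?_
    have h3 : ∑ x, ∑ y, ∑ z, t x y z *
        (∑ φ : Fin 5 → V, if Function.Injective φ then
        hh ω φ * ((if φ 0 = x ∧ φ 3 = y then 1 else 0) + if φ 0 = y ∧ φ 3 = x then 1 else 0)
        else 0) = ∑ φ : Fin 5 → V, if Function.Injective φ then
          hh ω φ * ∑ x, ∑ y, ∑ z, t x y z *
          ((if φ 0 = x ∧ φ 3 = y then 1 else 0) + if φ 0 = y ∧ φ 3 = x then 1 else 0) else 0 := by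
      simp_rw [Finset.mul_sum]
      rw [Finset.sum_congr rfl fun x _ => Finset.sum_congr rfl fun y _ => Finset.sum_comm]
      rw [Finset.sum_congr rfl fun x _ => Finset.sum_comm]
      rw [Finset.sum_comm]
      refine Finset.sum_congr rfl fun φ _ => ?_
      split_ifs with hφ
      · refine Finset.sum_congr rfl fun x _ => Finset.sum_congr rfl fun y _ =>
          Finset.sum_congr rfl fun z _ => ?_
        ring
      · simp
    rw [h3]
    unfold Dd
    rw [Finset.mul_sum]
    refine Finset.sum_le_sum fun φ _ => ?_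
    split_ifs with hφ
    · have h4 : ∑ x, ∑ y, ∑ z, t x y z *
          ((if φ 0 = x ∧ φ 3 = y then (1 : ℝ) else 0) + if φ 0 = y ∧ φ 3 = x then 1 else 0) =
          2 * ∑ z, t (φ 0) (φ 3) z := by
        have e1 : ∑ x, ∑ y, ∑ z, t x y z * (if φ 0 = x ∧ φ 3 = y then (1 : ℝ) else 0) =
            ∑ z, t (φ 0) (φ 3) z := by
          rw [Finset.sum_eq_single (φ 0)]
          · rw [Finset.sum_eq_single (φ 3)]
            · simp
            · intro b _ hb
              simp [hb.symm]
            · simp
          · intro b _ hb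
            simp [hb.symm]
          · simp
        have e2 : ∑ x, ∑ y, ∑ z, t x y z * (if φ 0 = y ∧ φ 3 = x then (1 : ℝ) else 0) =
            ∑ z, t (φ 3) (φ 0) z := by
          rw [Finset.sum_eq_single (φ 3)]
          · rw [Finset.sum_eq_single (φ 0)]
            · simp
            · intro b _ hb
              simp [hb.symm]
            · simp
          · intro b _ hb
            simp [hb.symm]
          · simp
        simp_rw [mul_add, Finset.sum_add_distrib]
        rw [e1, e2, two_mul]
        congr 1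
        exact Finset.sum_congr rfl fun z _ => t1 _ _ _
      rw [h4]
      have h5 : ∑ z, t (φ 0) (φ 3) z ≤ ∑ z, i2 ω (φ 0) z * i2 ω (φ 3) z := by
        refine Finset.sum_le_sum fun z _ => ?_
        simp only [ht]
        have := mul_le_mul_of_nonneg_right (i2_le_one ω (φ 0) (φ 3))
          (mul_nonneg (i2_nonneg ω (φ 3) z) (i2_nonneg ω (φ 0) z))
        linarith
      nlinarith [hh_nonneg ω φ, mul_le_mul_of_nonneg_left h5 (hh_nonneg ω φ)]
    · simp
  linarith

end Pool.Agent.R71.Count
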