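import Pool.Agent.R71.Count

set_option autoImplicit false
set_option linter.unusedSectionVars false

/-! Expectations of the counts. -/

namespace Pool.Agent.R71.Expect

open Finset Rand Kernel Link Count

variable {V : Type*} [Fintype V] [DecidableEq V]

/-- the probability that the edges of an injectively embedded graph are present -/
theorem ex_edges (p : Sym2 V → ℝ) {k m : ℕ} (L : Fin m → Fin k × Fin k)
    (hL : Function.Injective fun j => s((L j).1, (L j).2)) (φ : Fin k → V)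
    (hφ : Function.Injective φ) :
    ex p (fun ω => ∏ j, ind (ω s(φ (L j).1, φ (L j).2))) = ∏ j, p s(φ (L j).1, φ (L j).2) := by
  refine ex_prod_ind p univ (fun j => s(φ (L j).1, φ (L j).2)) ?_
  have h : Function.Injective fun j => s(φ (L j).1, φ (L j).2) := by
    have h1 : (fun j => s(φ (L j).1, φ (L j).2)) = Sym2.map φ ∘ fun j => s((L j).1, (L j).2) := by
      funext j; simp
    rw [h1]
    exact (Sym2.map.injective hφ).comp hL
  exact h.injOn

theorem prod_pw {D : ℕ} (P : ℝ) (τ : V → Fin D → Bool) {k m : ℕ} (L : Fin m → Fin k × Fin k)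
    (φ : Fin k → V) :
    ∏ j, pw P τ s(φ (L j).1, φ (L j).2) = P ^ m * ∏ j, W (τ (φ (L j).1)) (τ (φ (L j).2)) := by
  simp_rw [pw_mk]
  rw [Finset.prod_mul_distrib]
  simp

theorem prod_pw_le {D : ℕ} {P : ℝ} (hP : 0 ≤ P) (τ : V → Fin D → Bool) {k m : ℕ}
    (L : Fin m → Fin k × Fin k) (φ : Fin k → V) :
    ∏ j, pw P τ s(φ (L j).1, φ (L j).2) ≤ (P * 3 ^ D) ^ m := by
  calc ∏ j, pw P τ s(φ (L j).1, φ (L j).2) ≤ ∏ _j : Fin m, (P * 3 ^ D) :=
        Finset.prod_le_prod (fun j _ => pw_nonneg hP τ _) fun j _ => pw_le hP τ _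
    _ = (P * 3 ^ D) ^ m := by simp

section sums

variable {D : ℕ} {P : ℝ} (τ : V → Fin D → Bool)

/-- nested sum for edges -/
noncomputable def S2 : ℝ := ∑ x : V, ∑ y : V, W (τ x) (τ y)

/-- nested sum for triangles -/
noncomputable def S3 : ℝ := ∑ x : V, ∑ y : V, ∑ z : V, W (τ x) (τ y) * W (τ y) (τ z) * W (τ x) (τ z)

/-- sum for the deletions -/
noncomputable def S6 : ℝ := ∑ φ : Fin 6 → V, ∏ j, W (τ (φ (L6 j).1)) (τ (φ (L6 j).2))

theorem ex_i2 (hP : 0 ≤ P) (x y : V) :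
    ex (pw P τ) (fun ω => i2 ω x y) ≤ P * W (τ x) (τ y) := by
  by_cases h : x = y
  · subst h
    simp_rw [i2_self]
    rw [ex_const]
    exact mul_nonneg hP (W_pos _ _).le
  · have h1 := ex_prod_ind (pw P τ) (univ : Finset (Fin 1)) (fun _ => s(x, y))
      (by intro a _ b _ _; exact Subsingleton.elim a b)
    simp only [Finset.univ_unique, Finset.prod_singleton, pw_mk] at h1
    rw [← h1]
    refine le_of_eq ?_
    congr 1
    funext ω
    exact i2_of_ne ω h

theorem ex_i2_nonneg (hP : 0 ≤ P) (hP1 : P * 3 ^ D ≤ 1) (x y : V) :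
    0 ≤ ex (pw P τ) (fun ω => i2 ω x y) :=
  ex_nonneg (pw_nonneg hP τ) (fun e => (pw_le hP τ e).trans hP1) fun ω => i2_nonneg ω x y

theorem ex_T_le (hP : 0 ≤ P) : ex (pw P τ) (fun ω => T ω) ≤ P ^ 3 * S3 τ := by
  unfold T S3
  rw [ex_sum, Finset.mul_sum]
  refine Finset.sum_le_sum fun x _ => ?_
  rw [ex_sum, Finset.mul_sum]
  refine Finset.sum_le_sum fun y _ => ?_
  rw [ex_sum, Finset.mul_sum]
  refine Finset.sum_le_sum fun z _ => ?_
  have hnn : 0 ≤ P ^ 3 * (W (τ x) (τ y) * W (τ y) (τ z) * W (τ x) (τ z)) :=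
    mul_nonneg (pow_nonneg hP 3) (mul_nonneg (mul_nonneg (W_pos _ _).le (W_pos _ _).le)
      (W_pos _ _).le)
  by_cases hxy : x = y
  · subst hxy
    simp_rw [i2_self, zero_mul]
    rw [ex_const]; exact hnn
  by_cases hyz : y = z
  · subst hyz
    simp_rw [i2_self, mul_zero, zero_mul]
    rw [ex_const]; exact hnn
  by_cases hxz : x = z
  · subst hxz
    simp_rw [i2_self, mul_zero]
    rw [ex_const]; exact hnn
  have hφ : Function.Injective ![x, y, z] := by
    intro a b hab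
    fin_cases a <;> fin_cases b <;> simp_all
  have h := ex_edges (pw P τ) L3 (by decide) ![x, y, z] hφ
  rw [prod_pw] at h
  simp only [Fin.prod_univ_three] at h
  simp_rw [i2_of_ne _ hxy, i2_of_ne _ hyz, i2_of_ne _ hxz]
  exact h.le

theorem sN_nb (p : Sym2 V → ℝ) (ω : Sym2 V → Bool) (v : V) :
    sN p (nb ω v) = ∑ y, ∑ z, (if y = z then 0 else p s(y, z)) * (i2 ω v y * i2 ω v z) := by
  unfold sN
  rw [← Finset.sum_product' univ univ
    (fun y z => (if y = z then 0 else p s(y, z)) * (i2 ω v y * i2 ω v z))]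
  have hsub : (nb ω v).offDiag ⊆ univ ×ˢ univ := by intro q _; simp
  rw [← Finset.sum_subset hsub]
  · refine Finset.sum_congr rfl fun q hq => ?_
    simp only [Finset.mem_offDiag, nb, Finset.mem_filter, Finset.mem_univ, true_and] at hq
    obtain ⟨⟨h1, h2⟩, ⟨h3, h4⟩, h5⟩ := hq
    have e1 : i2 ω v q.1 = 1 := by unfold i2; rw [if_pos ⟨h1.symm, h2⟩]
    have e2 : i2 ω v q.2 = 1 := by unfold i2; rw [if_pos ⟨h3.symm, h4⟩]
    rw [e1, e2, if_neg h5]; ring
  · intro q _ hq
    simp only [Finset.mem_offDiag, nb, Finset.mem_filter, Finset.mem_univ, true_and, not_and] at hq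
    by_cases h1 : v ≠ q.1 ∧ ω s(v, q.1) = true
    · by_cases h2 : v ≠ q.2 ∧ ω s(v, q.2) = true
      · have h3 := hq ⟨h1.1.symm, h1.2⟩ ⟨h2.1.symm, h2.2⟩
        rw [ne_eq, not_not] at h3
        simp [h3]
      · unfold i2; simp [h2]
    · unfold i2; simp [h1]

theorem card_nb (ω : Sym2 V → Bool) (v : V) : ((nb ω v).card : ℝ) = ∑ y, i2 ω v y := by
  unfold nb i2
  rw [Finset.card_filter]
  push_cast
  refine Finset.sum_congr rfl fun y _ => ?_
  simp only [ne_comm]

theorem ex_sN_ge (hP : 0 ≤ P) :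
    P ^ 3 * S3 τ - 3 * (Fintype.card V : ℝ) ^ 2 * (P * 3 ^ D) ^ 3 ≤
      ex (pw P τ) (fun ω => ∑ v, sN (pw P τ) (nb ω v)) := by
  simp_rw [sN_nb]
  have hcount : 3 * (Fintype.card V : ℝ) ^ 2 * (P * 3 ^ D) ^ 3 =
      ∑ x : V, ∑ y : V, ∑ z : V, (P * 3 ^ D) ^ 3 *
        ((if x = y then 1 else 0) + (if y = z then 1 else 0) + if x = z then 1 else 0) := by
    simp_rw [← Finset.mul_sum, Finset.sum_add_distrib]
    simp only [Finset.sum_const, Finset.card_univ, nsmul_eq_mul, Finset.sum_ite_eq,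
      Finset.mem_univ, if_true, ← Finset.mul_sum, mul_one]
    ring
  rw [hcount]
  unfold S3
  rw [ex_sum, Finset.mul_sum, ← Finset.sum_sub_distrib]
  refine Finset.sum_le_sum fun x _ => ?_
  rw [ex_sum, Finset.mul_sum, ← Finset.sum_sub_distrib]
  refine Finset.sum_le_sum fun y _ => ?_
  rw [ex_sum, Finset.mul_sum, ← Finset.sum_sub_distrib]
  refine Finset.sum_le_sum fun z _ => ?_
  have hb : P ^ 3 * (W (τ x) (τ y) * W (τ y) (τ z) * W (τ x) (τ z)) ≤ (P * 3 ^ D) ^ 3 := by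
    have h1 := W_le (τ x) (τ y)
    have h2 := W_le (τ y) (τ z)
    have h3 := W_le (τ x) (τ z)
    have e : (P * 3 ^ D) ^ 3 = P ^ 3 * (3 ^ D * 3 ^ D * 3 ^ D) := by ring
    rw [e]
    refine mul_le_mul_of_nonneg_left ?_ (pow_nonneg hP 3)
    exact mul_le_mul (mul_le_mul h1 h2 (W_pos _ _).le (by positivity)) h3 (W_pos _ _).le
      (by positivity)
  have hP3 : 0 ≤ (P * 3 ^ D) ^ 3 := by positivity
  rw [ex_mul_left]
  have hnn : 0 ≤ (if y = z then 0 else pw P τ s(y, z)) *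
      ex (pw P τ) (fun ω => i2 ω x y * i2 ω x z) ∨ True := Or.inr trivial
  by_cases hyz : y = z
  · rw [if_pos hyz, if_pos hyz]
    have : 0 ≤ (P * 3 ^ D) ^ 3 * ((if x = y then (1 : ℝ) else 0) + if x = z then 1 else 0) := by
      split_ifs <;> nlinarith
    linarith
  by_cases hxy : x = y
  · have h0 : ∀ ω : Sym2 V → Bool, i2 ω x y * i2 ω x z = 0 := by
      intro ω; rw [hxy, i2_self, zero_mul]
    simp_rw [h0]
    rw [ex_const, mul_zero, if_pos hxy, if_neg hyz]
    have : 0 ≤ (P * 3 ^ D) ^ 3 * (if x = z then (1 : ℝ) else 0) := by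
      split_ifs <;> nlinarith
    linarith
  by_cases hxz : x = z
  · have h0 : ∀ ω : Sym2 V → Bool, i2 ω x y * i2 ω x z = 0 := by
      intro ω; rw [hxz, i2_self, mul_zero]
    simp_rw [h0]
    rw [ex_const, mul_zero, if_pos hxz, if_neg hyz, if_neg hxy]
    linarith
  have h1 := ex_prod_ind (pw P τ) (univ : Finset (Fin 2)) (fun i => ![s(x, y), s(x, z)] i) (by
    intro a _ b _ hab
    have hne : s(x, y) ≠ s(x, z) := by
      intro h
      rw [Sym2.eq_iff] at h
      rcases h with h | h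
      · exact hyz h.2
      · exact hxz h.1
    fin_cases a <;> fin_cases b <;> simp_all)
  simp only [Fin.prod_univ_two, Matrix.cons_val_zero, Matrix.cons_val_one, pw_mk] at h1
  simp_rw [i2_of_ne _ hxy, i2_of_ne _ hxz]
  rw [h1, if_neg hyz, if_neg hxy, if_neg hyz, if_neg hxz, pw_mk]
  refine le_of_eq ?_
  ring

theorem ex_card_le (hP : 0 ≤ P) :
    ex (pw P τ) (fun ω => ∑ v, ((nb ω v).card : ℝ)) ≤ P * S2 τ := by
  simp_rw [card_nb]
  unfold S2
  rw [ex_sum, Finset.mul_sum]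
  refine Finset.sum_le_sum fun x _ => ?_
  rw [ex_sum, Finset.mul_sum]
  exact Finset.sum_le_sum fun y _ => ex_i2 τ hP x y

theorem ex_card_nonneg (hP : 0 ≤ P) (hP1 : P * 3 ^ D ≤ 1) :
    0 ≤ ex (pw P τ) (fun ω => ∑ v, ((nb ω v).card : ℝ)) :=
  ex_nonneg (pw_nonneg hP τ) (fun e => (pw_le hP τ e).trans hP1) fun ω =>
    Finset.sum_nonneg fun v _ => by positivity

/-- `H₀` and the edge `01` -/
def L8a : Fin 8 → Fin 5 × Fin 5 := ![(0, 2), (0, 3), (0, 4), (1, 2), (1, 3), (1, 4), (2, 4), (0, 1)]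
/-- `H₀` and the edge `23` -/
def L8b : Fin 8 → Fin 5 × Fin 5 := ![(0, 2), (0, 3), (0, 4), (1, 2), (1, 3), (1, 4), (2, 4), (2, 3)]
/-- `H₀` and the edge `34` -/
def L8c : Fin 8 → Fin 5 × Fin 5 := ![(0, 2), (0, 3), (0, 4), (1, 2), (1, 3), (1, 4), (2, 4), (3, 4)]

theorem ex_term (hP : 0 ≤ P) (hP1 : P * 3 ^ D ≤ 1) (φ : Fin 5 → V) (hφ : Function.Injective φ)
    (z : V) :
    ex (pw P τ) (fun ω => hh ω φ * (i2 ω (φ 0) z * i2 ω (φ 3) z)) ≤
      P ^ 9 * (∏ j, W (τ ((Fin.snoc (α := fun _ => V) φ z : Fin 6 → V) (L6 j).1))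
        (τ ((Fin.snoc (α := fun _ => V) φ z : Fin 6 → V) (L6 j).2))) +
      (P * 3 ^ D) ^ 8 * ((if z = φ 1 then 1 else 0) + (if z = φ 2 then 1 else 0) +
        if z = φ 4 then 1 else 0) := by
  have h0 : ∀ e, 0 ≤ pw P τ e := pw_nonneg hP τ
  have h1 : ∀ e, pw P τ e ≤ 1 := fun e => (pw_le hP τ e).trans hP1
  have hA : 0 ≤ P ^ 9 * (∏ j, W (τ ((Fin.snoc (α := fun _ => V) φ z : Fin 6 → V) (L6 j).1))
        (τ ((Fin.snoc (α := fun _ => V) φ z : Fin 6 → V) (L6 j).2))) :=
    mul_nonneg (pow_nonneg hP 9) (Finset.prod_nonneg fun _ _ => (W_pos _ _).le)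
  have hB : 0 ≤ (P * 3 ^ D) ^ 8 := by positivity
  have hi : ∀ q : Prop, ∀ [Decidable q], (0 : ℝ) ≤ if q then 1 else 0 := by
    intro q _; split_ifs <;> norm_num
  by_cases z0 : z = φ 0
  · have : ∀ ω : Sym2 V → Bool, hh ω φ * (i2 ω (φ 0) z * i2 ω (φ 3) z) = 0 := by
      intro ω; rw [z0, i2_self]; ring
    simp_rw [this]
    rw [ex_const]
    have := hi (z = φ 1); have := hi (z = φ 2); have := hi (z = φ 4)
    positivity
  by_cases z3 : z = φ 3
  · have : ∀ ω : Sym2 V → Bool, hh ω φ * (i2 ω (φ 0) z * i2 ω (φ 3) z) = 0 := by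
      intro ω; rw [z3, i2_self]; ring
    simp_rw [this]
    rw [ex_const]
    have := hi (z = φ 1); have := hi (z = φ 2); have := hi (z = φ 4)
    positivity
  by_cases z1 : z = φ 1
  · have hle : ex (pw P τ) (fun ω => hh ω φ * (i2 ω (φ 0) z * i2 ω (φ 3) z)) ≤
        (P * 3 ^ D) ^ 8 := by
      refine le_trans ?_ (prod_pw_le hP τ L8a φ)
      rw [← ex_edges (pw P τ) L8a (by decide) φ hφ]
      refine ex_mono h0 h1 fun ω => ?_
      rw [Fin.prod_univ_castSucc]
      refine mul_le_mul (le_of_eq ?_) ?_ (mul_nonneg (i2_nonneg _ _ _) (i2_nonneg _ _ _))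
        (Finset.prod_nonneg fun _ _ => ind_nonneg _)
      · unfold hh
        refine Finset.prod_congr rfl fun j _ => ?_
        fin_cases j <;> rfl
      · rw [z1]
        have e1 := i2_le_ind ω (φ 0) (φ 1)
        have e2 := i2_le_one ω (φ 3) (φ 1)
        have e3 := i2_nonneg ω (φ 0) (φ 1)
        calc i2 ω (φ 0) (φ 1) * i2 ω (φ 3) (φ 1) ≤ i2 ω (φ 0) (φ 1) * 1 :=
              mul_le_mul_of_nonneg_left e2 e3
          _ ≤ _ := by rw [mul_one]; exact e1
    rw [if_pos z1]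
    have := hi (z = φ 2); have := hi (z = φ 4)
    nlinarith
  by_cases z2 : z = φ 2
  · have hle : ex (pw P τ) (fun ω => hh ω φ * (i2 ω (φ 0) z * i2 ω (φ 3) z)) ≤
        (P * 3 ^ D) ^ 8 := by
      refine le_trans ?_ (prod_pw_le hP τ L8b φ)
      rw [← ex_edges (pw P τ) L8b (by decide) φ hφ]
      refine ex_mono h0 h1 fun ω => ?_
      rw [Fin.prod_univ_castSucc]
      refine mul_le_mul (le_of_eq ?_) ?_ (mul_nonneg (i2_nonneg _ _ _) (i2_nonneg _ _ _))
        (Finset.prod_nonneg fun _ _ => ind_nonneg _)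
      · unfold hh
        refine Finset.prod_congr rfl fun j _ => ?_
        fin_cases j <;> rfl
      · rw [z2]
        have e1 := i2_le_ind ω (φ 2) (φ 3)
        have e2 := i2_le_one ω (φ 0) (φ 2)
        have e3 := i2_nonneg ω (φ 2) (φ 3)
        rw [i2_comm ω (φ 3) (φ 2)]
        calc i2 ω (φ 0) (φ 2) * i2 ω (φ 2) (φ 3) ≤ 1 * i2 ω (φ 2) (φ 3) :=
              mul_le_mul_of_nonneg_right e2 e3
          _ ≤ _ := by rw [one_mul]; exact e1
    rw [if_pos z2]
    have := hi (z = φ 1); have := hi (z = φ 4)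
    nlinarith
  by_cases z4 : z = φ 4
  · have hle : ex (pw P τ) (fun ω => hh ω φ * (i2 ω (φ 0) z * i2 ω (φ 3) z)) ≤
        (P * 3 ^ D) ^ 8 := by
      refine le_trans ?_ (prod_pw_le hP τ L8c φ)
      rw [← ex_edges (pw P τ) L8c (by decide) φ hφ]
      refine ex_mono h0 h1 fun ω => ?_
      rw [Fin.prod_univ_castSucc]
      refine mul_le_mul (le_of_eq ?_) ?_ (mul_nonneg (i2_nonneg _ _ _) (i2_nonneg _ _ _))
        (Finset.prod_nonneg fun _ _ => ind_nonneg _)
      · unfold hh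
        refine Finset.prod_congr rfl fun j _ => ?_
        fin_cases j <;> rfl
      · rw [z4]
        have e1 := i2_le_ind ω (φ 3) (φ 4)
        have e2 := i2_le_one ω (φ 0) (φ 4)
        have e3 := i2_nonneg ω (φ 3) (φ 4)
        calc i2 ω (φ 0) (φ 4) * i2 ω (φ 3) (φ 4) ≤ 1 * i2 ω (φ 3) (φ 4) :=
              mul_le_mul_of_nonneg_right e2 e3
          _ ≤ _ := by rw [one_mul]; exact e1
    rw [if_pos z4]
    have := hi (z = φ 1); have := hi (z = φ 2)
    nlinarith
  -- the main case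
  have hinj : Function.Injective (Fin.snoc (α := fun _ => V) φ z : Fin 6 → V) := by
    intro a b hab
    induction a using Fin.lastCases with
    | last =>
      induction b using Fin.lastCases with
      | last => rfl
      | cast b =>
        simp only [Fin.snoc_last, Fin.snoc_castSucc] at hab
        exfalso
        fin_cases b
        · exact z0 hab
        · exact z1 hab
        · exact z2 hab
        · exact z3 hab
        · exact z4 hab
    | cast a =>
      induction b using Fin.lastCases with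
      | last =>
        simp only [Fin.snoc_last, Fin.snoc_castSucc] at hab
        exfalso
        fin_cases a
        · exact z0 hab.symm
        · exact z1 hab.symm
        · exact z2 hab.symm
        · exact z3 hab.symm
        · exact z4 hab.symm
      | cast b =>
        simp only [Fin.snoc_castSucc] at hab
        rw [hφ hab]
  have h2 := ex_edges (pw P τ) L6 (by decide) _ hinj
  rw [prod_pw] at h2
  rw [← h2]
  have h3 : 0 ≤ (P * 3 ^ D) ^ 8 * ((if z = φ 1 then (1 : ℝ) else 0) + (if z = φ 2 then 1 else 0) +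
        if z = φ 4 then 1 else 0) := by
    have := hi (z = φ 1); have := hi (z = φ 2); have := hi (z = φ 4)
    positivity
  refine le_add_of_le_of_nonneg (le_of_eq ?_) h3
  congr 1
  funext ω
  rw [Fin.prod_univ_castSucc, Fin.prod_univ_castSucc, mul_assoc]
  congr 1
  rw [i2_of_ne ω (Ne.symm z0), i2_of_ne ω (Ne.symm z3)]
  rfl

theorem ex_Dd_le (hP : 0 ≤ P) (hP1 : P * 3 ^ D ≤ 1) :
    ex (pw P τ) (fun ω => Dd ω) ≤
      P ^ 9 * S6 τ + 3 * (Fintype.card V : ℝ) ^ 5 * (P * 3 ^ D) ^ 8 := by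
  classical
  have h0 : ∀ e, 0 ≤ pw P τ e := pw_nonneg hP τ
  have h1 : ∀ e, pw P τ e ≤ 1 := fun e => (pw_le hP τ e).trans hP1
  have hb : ∀ φ : Fin 5 → V, ex (pw P τ) (fun ω => if Function.Injective φ then
      hh ω φ * ∑ z, i2 ω (φ 0) z * i2 ω (φ 3) z else 0) ≤
      ∑ z, (P ^ 9 * (∏ j, W (τ ((Fin.snoc (α := fun _ => V) φ z : Fin 6 → V) (L6 j).1))
        (τ ((Fin.snoc (α := fun _ => V) φ z : Fin 6 → V) (L6 j).2))) +
      (P * 3 ^ D) ^ 8 * ((if z = φ 1 then 1 else 0) + (if z = φ 2 then 1 else 0) +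
        if z = φ 4 then 1 else 0)) := by
    intro φ
    by_cases hφ : Function.Injective φ
    · simp_rw [if_pos hφ, Finset.mul_sum]
      rw [ex_sum]
      exact Finset.sum_le_sum fun z _ => ex_term τ hP hP1 φ hφ z
    · simp_rw [if_neg hφ]
      rw [ex_const]
      refine Finset.sum_nonneg fun z _ => add_nonneg (mul_nonneg (pow_nonneg hP 9)
        (Finset.prod_nonneg fun _ _ => (W_pos _ _).le)) (mul_nonneg (by positivity) ?_)
      split_ifs <;> norm_num
  unfold Dd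
  rw [ex_sum]
  refine (Finset.sum_le_sum fun φ _ => hb φ).trans (le_of_eq ?_)
  simp_rw [Finset.sum_add_distrib, ← Finset.mul_sum]
  congr 1
  · congr 1
    unfold S6
    rw [← (Fin.snocEquiv (fun _ : Fin 6 => V)).sum_comp, Fintype.sum_prod_type, Finset.sum_comm]
    rfl
  · simp only [Finset.sum_add_distrib, Finset.sum_ite_eq', Finset.mem_univ, if_true,
      Finset.sum_const, Finset.card_univ, Fintype.card_fun, Fintype.card_fin, nsmul_eq_mul]
    push_cast
    ring

end sums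

end Pool.Agent.R71.Expect
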