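import Mathlib

set_option autoImplicit false

/-! The positive semidefinite kernel `W x y = ∏ i, w (x i) (y i)` on `{0,1}^D`, `w = 3` on the
diagonal and `2` off the diagonal, and its homomorphism sums. -/

namespace Pool.Agent.R71.Kernel

open Finset

/-- the kernel on one coordinate -/
noncomputable def w (a b : Bool) : ℝ := if a = b then 3 else 2

/-- the kernel -/
noncomputable def W {D : ℕ} (x y : Fin D → Bool) : ℝ := ∏ i, w (x i) (y i)

theorem w_comm (a b : Bool) : w a b = w b a := by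
  unfold w; simp only [eq_comm]

theorem w_pos (a b : Bool) : 0 < w a b := by
  unfold w; split_ifs <;> norm_num

theorem w_le (a b : Bool) : w a b ≤ 3 := by
  unfold w; split_ifs <;> norm_num

theorem W_comm {D : ℕ} (x y : Fin D → Bool) : W x y = W y x := by
  unfold W; exact Finset.prod_congr rfl fun i _ => w_comm _ _

theorem W_pos {D : ℕ} (x y : Fin D → Bool) : 0 < W x y :=
  Finset.prod_pos fun _ _ => w_pos _ _

theorem W_le {D : ℕ} (x y : Fin D → Bool) : W x y ≤ 3 ^ D := by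
  unfold W
  calc ∏ i, w (x i) (y i) ≤ ∏ _i : Fin D, (3 : ℝ) :=
        Finset.prod_le_prod (fun i _ => (w_pos _ _).le) fun i _ => w_le _ _
    _ = 3 ^ D := by simp

theorem W_self {D : ℕ} (x : Fin D → Bool) : W x x = 3 ^ D := by
  unfold W w; simp

/-- the features of the kernel `w` -/
noncomputable def ft (j : Fin 4) (a : Bool) : ℝ :=
  match j with
  | 0 => 1
  | 1 => 1
  | 2 => if a then 1 else 0
  | 3 => if a then 0 else 1

theorem w_eq (a b : Bool) : w a b = ∑ j, ft j a * ft j b := by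
  rw [Fin.sum_univ_four]
  cases a <;> cases b <;> simp [w, ft] <;> norm_num

theorem W_eq {D : ℕ} (x y : Fin D → Bool) :
    W x y = ∑ k : Fin D → Fin 4, (∏ i, ft (k i) (x i)) * ∏ i, ft (k i) (y i) := by
  unfold W
  simp_rw [w_eq, ← Finset.prod_mul_distrib]
  have := Finset.prod_univ_sum (fun _ : Fin D => (Finset.univ : Finset (Fin 4)))
    (fun i j => ft j (x i) * ft j (y i))
  rw [Fintype.piFinset_univ] at this
  exact this

/-- the kernel is positive semidefinite -/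
theorem psd {D : ℕ} {V : Type*} (N : Finset V) (f : V → ℝ) (τ : V → Fin D → Bool) :
    0 ≤ ∑ y ∈ N, ∑ z ∈ N, f y * f z * W (τ y) (τ z) := by
  have h : ∑ y ∈ N, ∑ z ∈ N, f y * f z * W (τ y) (τ z) =
      ∑ k : Fin D → Fin 4, (∑ y ∈ N, f y * ∏ i, ft (k i) (τ y i)) ^ 2 := by
    simp_rw [W_eq, Finset.mul_sum]
    rw [Finset.sum_congr rfl fun y _ => Finset.sum_comm, Finset.sum_comm]
    refine Finset.sum_congr rfl fun k _ => ?_
    rw [sq, Finset.sum_mul_sum]
    refine Finset.sum_congr rfl fun y _ => Finset.sum_congr rfl fun z _ => ?_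
    ring
  rw [h]
  exact Finset.sum_nonneg fun k _ => sq_nonneg _

/-- homomorphism sums are powers -/
theorem hom_eq (k m D : ℕ) (L : Fin m → Fin k × Fin k) :
    ∑ φ : Fin k → Fin D → Bool, ∏ j, W (φ (L j).1) (φ (L j).2) =
      (∑ g : Fin k → Bool, ∏ j, w (g (L j).1) (g (L j).2)) ^ D := by
  have h1 : (∑ g : Fin k → Bool, ∏ j, w (g (L j).1) (g (L j).2)) ^ D =
      ∏ _i : Fin D, ∑ g : Fin k → Bool, ∏ j, w (g (L j).1) (g (L j).2) := by simp
  rw [h1]
  have := Finset.prod_univ_sum (fun _ : Fin D => (Finset.univ : Finset (Fin k → Bool)))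
    (fun _ g => ∏ j, w (g (L j).1) (g (L j).2))
  rw [Fintype.piFinset_univ] at this
  rw [this]
  refine Fintype.sum_equiv (Equiv.piComm fun _ _ => Bool) _ _ fun φ => ?_
  unfold W
  rw [Finset.prod_comm]
  rfl

/-- the same for blown up vertex sets -/
theorem hom_blow (k m D b : ℕ) (L : Fin m → Fin k × Fin k) :
    ∑ φ : Fin k → (Fin D → Bool) × Fin b, ∏ j, W (φ (L j).1).1 (φ (L j).2).1 =
      (b : ℝ) ^ k * (∑ g : Fin k → Bool, ∏ j, w (g (L j).1) (g (L j).2)) ^ D := by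
  rw [← hom_eq]
  have key : ∑ φ : Fin k → (Fin D → Bool) × Fin b, ∏ j, W (φ (L j).1).1 (φ (L j).2).1 =
      ∑ q : (Fin k → Fin D → Bool) × (Fin k → Fin b), ∏ j, W (q.1 (L j).1) (q.1 (L j).2) :=
    Fintype.sum_equiv (Equiv.arrowProdEquivProdArrow (Fin k) (fun _ => Fin D → Bool)
      (fun _ => Fin b)) _ _ (fun φ => rfl)
  rw [key, Fintype.sum_prod_type]
  simp only [Finset.sum_const, Finset.card_univ, Fintype.card_fun, Fintype.card_fin,
    nsmul_eq_mul, ← Finset.mul_sum]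
  push_cast
  rfl

/-- the natural number version of `w` -/
def wn (a b : Bool) : ℕ := if a = b then 3 else 2

theorem w_cast (a b : Bool) : w a b = (wn a b : ℝ) := by
  unfold w wn; split_ifs <;> norm_num

theorem base_cast (k m : ℕ) (L : Fin m → Fin k × Fin k) :
    ∑ g : Fin k → Bool, ∏ j, w (g (L j).1) (g (L j).2) =
      ((∑ g : Fin k → Bool, ∏ j, wn (g (L j).1) (g (L j).2) : ℕ) : ℝ) := by
  push_cast
  simp_rw [w_cast]

/-- an edge -/
def L2 : Fin 1 → Fin 2 × Fin 2 := ![(0, 1)]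

/-- a triangle -/
def L3 : Fin 3 → Fin 3 × Fin 3 := ![(0, 1), (1, 2), (0, 2)]

/-- the graph `H₀` and a triangle on the edge `03` -/
def L6 : Fin 9 → Fin 6 × Fin 6 :=
  ![(0, 2), (0, 3), (0, 4), (1, 2), (1, 3), (1, 4), (2, 4), (0, 5), (3, 5)]

theorem base2 : ∑ g : Fin 2 → Bool, ∏ j, wn (g (L2 j).1) (g (L2 j).2) = 10 := by
  decide +kernel

theorem base3 : ∑ g : Fin 3 → Bool, ∏ j, wn (g (L3 j).1) (g (L3 j).2) = 126 := by
  decide +kernel

theorem base6 : ∑ g : Fin 6 → Bool, ∏ j, wn (g (L6 j).1) (g (L6 j).2) = 251550 := by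
  decide +kernel

theorem sum2 (D b : ℕ) :
    ∑ φ : Fin 2 → (Fin D → Bool) × Fin b, ∏ j, W (φ (L2 j).1).1 (φ (L2 j).2).1 =
      (b : ℝ) ^ 2 * 10 ^ D := by
  rw [hom_blow, base_cast, base2]; norm_num

theorem sum3 (D b : ℕ) :
    ∑ φ : Fin 3 → (Fin D → Bool) × Fin b, ∏ j, W (φ (L3 j).1).1 (φ (L3 j).2).1 =
      (b : ℝ) ^ 3 * 126 ^ D := by
  rw [hom_blow, base_cast, base3]; norm_num

theorem sum6 (D b : ℕ) :
    ∑ φ : Fin 6 → (Fin D → Bool) × Fin b, ∏ j, W (φ (L6 j).1).1 (φ (L6 j).2).1 =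
      (b : ℝ) ^ 6 * 251550 ^ D := by
  rw [hom_blow, base_cast, base6]; norm_num

end Pool.Agent.R71.Kernel
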