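import Pool.Agent.R71.Rand
import Pool.Agent.R71.Kernel

set_option autoImplicit false
set_option linter.unusedSectionVars false

/-! The number of monochromatic pairs of edges at a vertex that are completed to a triangle. -/

namespace Pool.Agent.R71.Link

open Finset Rand Kernel

variable {V : Type*} [Fintype V] [DecidableEq V]

/-- sums over symmetric sets of ordered pairs -/
theorem sum_sym (s : Finset (V × V)) (hs : ∀ a b, (a, b) ∈ s → (b, a) ∈ s)
    (hi : ∀ a b, (a, b) ∈ s → a ≠ b) (h : Sym2 V → ℝ) :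
    ∑ q ∈ s, h s(q.1, q.2) = 2 * ∑ e ∈ s.image (fun q => s(q.1, q.2)), h e := by
  rw [Finset.sum_comp h (fun q : V × V => s(q.1, q.2)), Finset.mul_sum]
  refine Finset.sum_congr rfl fun e he => ?_
  obtain ⟨⟨a, b⟩, hab, rfl⟩ := Finset.mem_image.1 he
  have hne : a ≠ b := hi a b hab
  have hf : {q ∈ s | s(q.1, q.2) = s(a, b)} = {(a, b), (b, a)} := by
    ext ⟨x, y⟩
    simp only [Finset.mem_filter, Finset.mem_insert, Finset.mem_singleton, Prod.mk.injEq,
      Sym2.eq_iff]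
    constructor
    · rintro ⟨-, h | h⟩
      · exact Or.inl h
      · exact Or.inr h
    · rintro (⟨rfl, rfl⟩ | ⟨rfl, rfl⟩)
      · exact ⟨hab, Or.inl ⟨rfl, rfl⟩⟩
      · exact ⟨hs _ _ hab, Or.inr ⟨rfl, rfl⟩⟩
  rw [hf, Finset.card_pair]
  · simp
  · intro h
    exact hne (Prod.mk.inj h).1

/-- the pairs in `N` which are not separated by `A` -/
def Q (N A : Finset V) : Finset (Sym2 V) :=
  (N.offDiag.filter fun q => (q.1 ∈ A ↔ q.2 ∈ A)).image fun q => s(q.1, q.2)

theorem sum_Q (N A : Finset V) (h : Sym2 V → ℝ) :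
    ∑ q ∈ N.offDiag.filter (fun q => (q.1 ∈ A ↔ q.2 ∈ A)), h s(q.1, q.2) =
      2 * ∑ e ∈ Q N A, h e := by
  refine sum_sym _ ?_ ?_ h
  · intro a b hab
    simp only [Finset.mem_filter, Finset.mem_offDiag] at hab ⊢
    exact ⟨⟨hab.1.2.1, hab.1.1, fun h => hab.1.2.2 h.symm⟩, hab.2.symm⟩
  · intro a b hab
    simp only [Finset.mem_filter, Finset.mem_offDiag] at hab
    exact hab.1.2.2

/-- the edge probabilities -/
noncomputable def pw {D : ℕ} (P : ℝ) (τ : V → Fin D → Bool) (e : Sym2 V) : ℝ :=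
  P * Sym2.lift ⟨fun x y => W (τ x) (τ y), fun x y => W_comm _ _⟩ e

@[simp] theorem pw_mk {D : ℕ} (P : ℝ) (τ : V → Fin D → Bool) (x y : V) :
    pw P τ s(x, y) = P * W (τ x) (τ y) := rfl

theorem pw_nonneg {D : ℕ} {P : ℝ} (hP : 0 ≤ P) (τ : V → Fin D → Bool) (e : Sym2 V) :
    0 ≤ pw P τ e := by
  induction e with
  | _ x y => rw [pw_mk]; exact mul_nonneg hP (W_pos _ _).le

theorem pw_le {D : ℕ} {P : ℝ} (hP : 0 ≤ P) (τ : V → Fin D → Bool) (e : Sym2 V) :
    pw P τ e ≤ P * 3 ^ D := by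
  induction e with
  | _ x y => rw [pw_mk]; exact mul_le_mul_of_nonneg_left (W_le _ _) hP

/-- total weight of the pairs in `N` (ordered) -/
noncomputable def sN (p : Sym2 V → ℝ) (N : Finset V) : ℝ := ∑ q ∈ N.offDiag, p s(q.1, q.2)

/-- half of the weight is not separated -/
theorem eA_ge {D : ℕ} {P : ℝ} (hP : 0 ≤ P) (τ : V → Fin D → Bool) (N A : Finset V) :
    (1 / 4) * (sN (pw P τ) N - P * 3 ^ D * N.card) ≤ ∑ e ∈ Q N A, pw P τ e := by
  have h1 := sum_Q N A (pw P τ)
  set f : V → ℝ := fun y => if y ∈ A then 1 else -1 with hf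
  have hff : ∀ y, f y * f y = 1 := by
    intro y; simp only [hf]; split_ifs <;> norm_num
  have h2 := psd N f τ
  rw [← Finset.sum_product' N N (fun y z => f y * f z * W (τ y) (τ z)),
    ← Finset.diag_union_offDiag, Finset.sum_union (Finset.disjoint_diag_offDiag N)] at h2
  have h3 : ∑ q ∈ N.diag, f q.1 * f q.2 * W (τ q.1) (τ q.2) = 3 ^ D * N.card := by
    rw [Finset.sum_diag]
    simp only [hff, one_mul, W_self, Finset.sum_const, nsmul_eq_mul]
    ring
  have h4 : ∑ q ∈ N.offDiag.filter (fun q => (q.1 ∈ A ↔ q.2 ∈ A)), pw P τ s(q.1, q.2) =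
      (1 / 2) * sN (pw P τ) N +
        (1 / 2) * (P * ∑ q ∈ N.offDiag, f q.1 * f q.2 * W (τ q.1) (τ q.2)) := by
    unfold sN
    rw [Finset.sum_filter, Finset.mul_sum, Finset.mul_sum, Finset.mul_sum, ← Finset.sum_add_distrib]
    refine Finset.sum_congr rfl fun q _ => ?_
    rw [pw_mk]
    by_cases h1 : q.1 ∈ A <;> by_cases h2 : q.2 ∈ A <;> simp [hf, h1, h2] <;> ring
  rw [h3] at h2
  have h5 : P * (-(3 ^ D * N.card)) ≤
      P * ∑ q ∈ N.offDiag, f q.1 * f q.2 * W (τ q.1) (τ q.2) :=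
    mul_le_mul_of_nonneg_left (by linarith) hP
  rw [h4] at h1
  nlinarith [h1, h5]

/-- number of unseparated edges -/
noncomputable def M (ω : Sym2 V → Bool) (N A : Finset V) : ℝ := ∑ e ∈ Q N A, ind (ω e)

/-- neighbourhood -/
def nb (ω : Sym2 V → Bool) (v : V) : Finset V := univ.filter fun y => y ≠ v ∧ ω s(v, y) = true

theorem not_mem_nb (ω : Sym2 V → Bool) (v : V) : v ∉ nb ω v := by simp [nb]

/-- the edges at `v` -/
def star (v : V) : Finset (Sym2 V) := (univ.erase v).image fun y => s(v, y)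

/-- the factors of the indicator of `nb ω v = N` -/
noncomputable def gN (v : V) (N : Finset V) (e : Sym2 V) (b : Bool) : ℝ :=
  if (b = true ↔ ∃ y ∈ N, e = s(v, y)) then 1 else 0

theorem nbInd_eq (v : V) (N : Finset V) (hv : v ∉ N) (ω : Sym2 V → Bool) :
    ∏ e ∈ star v, gN v N e (ω e) = if nb ω v = N then 1 else 0 := by
  have key : ∀ y, y ≠ v → ((∃ z ∈ N, s(v, y) = s(v, z)) ↔ y ∈ N) := by
    intro y hy
    constructor
    · rintro ⟨z, hz, h⟩
      rw [Sym2.eq_iff] at h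
      rcases h with ⟨-, h⟩ | ⟨h1, h2⟩
      · rw [h]; exact hz
      · exact absurd h2 hy
    · intro h
      exact ⟨y, h, rfl⟩
  split_ifs with h
  · refine Finset.prod_eq_one fun e he => ?_
    obtain ⟨y, hy, rfl⟩ := Finset.mem_image.1 he
    have hyv : y ≠ v := (Finset.mem_erase.1 hy).1
    unfold gN
    rw [if_pos]
    rw [key y hyv, ← h]
    simp [nb, hyv]
  · have : ∃ y, y ≠ v ∧ ¬ (ω s(v, y) = true ↔ y ∈ N) := by
      by_contra hcon
      push Not at hcon
      apply h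
      ext y
      by_cases hy : y = v
      · rw [hy]
        exact ⟨fun h => absurd h (not_mem_nb ω v), fun h => absurd h hv⟩
      · simp only [nb, Finset.mem_filter, Finset.mem_univ, true_and, hy, ne_eq, not_false_eq_true]
        exact hcon y hy
    obtain ⟨y, hy, hy2⟩ := this
    refine Finset.prod_eq_zero (Finset.mem_image.2 ⟨y, Finset.mem_erase.2 ⟨hy, Finset.mem_univ _⟩, rfl⟩) ?_
    unfold gN
    rw [if_neg]
    rw [key y hy]
    exact hy2

theorem disjoint_star_Q (v : V) (N A : Finset V) (hv : v ∉ N) : Disjoint (star v) (Q N A) := by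
  rw [Finset.disjoint_left]
  intro e he he2
  obtain ⟨y, hy, rfl⟩ := Finset.mem_image.1 he
  obtain ⟨⟨a, b⟩, hq, hab⟩ := Finset.mem_image.1 he2
  simp only [Finset.mem_filter, Finset.mem_offDiag] at hq
  rw [Sym2.eq_iff] at hab
  rcases hab with ⟨h1, h2⟩ | ⟨h1, h2⟩
  · exact hv (h1 ▸ hq.1.1)
  · exact hv (h2 ▸ hq.1.2.1)

/-- exponential moment given the neighbourhood -/
theorem exp_moment {p : Sym2 V → ℝ} (h0 : ∀ e, 0 ≤ p e) (h1 : ∀ e, p e ≤ 1) (θ : ℝ)
    (v : V) (N A : Finset V) (hv : v ∉ N) :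
    ex p (fun ω => (if nb ω v = N then 1 else 0) * Real.exp (-θ * M ω N A)) ≤
      ex p (fun ω => if nb ω v = N then 1 else 0) *
        Real.exp (-(1 - Real.exp (-θ)) * ∑ e ∈ Q N A, p e) := by
  have hM : ∀ ω : Sym2 V → Bool, Real.exp (-θ * M ω N A) = ∏ e ∈ Q N A, Real.exp (-θ * ind (ω e)) := by
    intro ω
    rw [← Real.exp_sum]
    unfold M
    rw [Finset.mul_sum]
  simp_rw [hM, ← nbInd_eq v N hv]
  rw [ex_prod_mul_prod p (star v) (Q N A) (disjoint_star_Q v N A hv) (gN v N)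
    (fun _ b => Real.exp (-θ * ind b))]
  refine mul_le_mul_of_nonneg_left ?_ ?_
  · rw [Finset.mul_sum, Real.exp_sum]
    refine Finset.prod_le_prod (fun e _ => ?_) fun e _ => ?_
    · have := h0 e
      have := h1 e
      have h3 := Real.exp_pos (-θ * ind true)
      have h4 := Real.exp_pos (-θ * ind false)
      nlinarith
    · simp only [ind_true, ind_false, mul_one, mul_zero, Real.exp_zero]
      have := Real.add_one_le_exp (-(1 - Real.exp (-θ)) * p e)
      linarith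
  · refine ex_nonneg h0 h1 fun ω => Finset.prod_nonneg fun e _ => ?_
    unfold gN
    split_ifs <;> norm_num

/-- the target value -/
noncomputable def aN {D : ℕ} (P : ℝ) (τ : V → Fin D → Bool) (N : Finset V) : ℝ :=
  2 * ((1 - Real.exp (-(1 / 2))) * ((1 / 4) * (sN (pw P τ) N - P * 3 ^ D * N.card)) -
    N.card * Real.log 2)

/-- a lower bound for all the numbers `M ω N A` -/
noncomputable def R {D : ℕ} (P : ℝ) (τ : V → Fin D → Bool) (ω : Sym2 V → Bool) (N : Finset V) : ℝ :=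
  aN P τ N + 2 * (1 - Real.exp ((1 / 2) * aN P τ N) *
    ∑ A ∈ N.powerset, Real.exp (-(1 / 2) * M ω N A))

theorem R_le_M {D : ℕ} (P : ℝ) (τ : V → Fin D → Bool) (ω : Sym2 V → Bool) (N A : Finset V)
    (hA : A ⊆ N) : R P τ ω N ≤ M ω N A := by
  unfold R
  have h1 := Real.add_one_le_exp (-((1 / 2) * (M ω N A - aN P τ N)))
  have h2 : Real.exp (-((1 / 2) * (M ω N A - aN P τ N))) =
      Real.exp ((1 / 2) * aN P τ N) * Real.exp (-(1 / 2) * M ω N A) := by
    rw [← Real.exp_add]; congr 1; ring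
  have h3 : Real.exp (-(1 / 2) * M ω N A) ≤ ∑ A ∈ N.powerset, Real.exp (-(1 / 2) * M ω N A) :=
    Finset.single_le_sum (f := fun A => Real.exp (-(1 / 2) * M ω N A))
      (fun A _ => (Real.exp_pos _).le) (Finset.mem_powerset.2 hA)
  have h4 := mul_le_mul_of_nonneg_left h3 (Real.exp_pos ((1 / 2) * aN P τ N)).le
  linarith

theorem ex_R_ge {D : ℕ} {P : ℝ} (hP : 0 ≤ P) (τ : V → Fin D → Bool) (hP1 : P * 3 ^ D ≤ 1) (v : V) :
    ex (pw P τ) (fun ω => aN P τ (nb ω v)) ≤ ex (pw P τ) (fun ω => R P τ ω (nb ω v)) := by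
  have h0 : ∀ e, 0 ≤ pw P τ e := pw_nonneg hP τ
  have h1 : ∀ e, pw P τ e ≤ 1 := fun e => (pw_le hP τ e).trans hP1
  rw [← sub_nonneg, ← ex_sub]
  -- split according to the neighbourhood
  have hsplit : ∀ ω : Sym2 V → Bool, R P τ ω (nb ω v) - aN P τ (nb ω v) =
      ∑ N ∈ (univ.erase v).powerset, (2 * (if nb ω v = N then 1 else 0) -
        2 * Real.exp ((1 / 2) * aN P τ N) *
          ∑ A ∈ N.powerset, (if nb ω v = N then 1 else 0) * Real.exp (-(1 / 2) * M ω N A)) := by
    intro ω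
    have hmem : nb ω v ∈ (univ.erase v).powerset := by
      rw [Finset.mem_powerset]
      intro y hy
      rw [Finset.mem_erase]
      exact ⟨fun h => not_mem_nb ω v (h ▸ hy), Finset.mem_univ _⟩
    rw [Finset.sum_eq_single_of_mem _ hmem]
    · simp only [if_true, one_mul]
      unfold R
      ring
    · intro N _ hN
      rw [if_neg (Ne.symm hN)]
      simp
  simp_rw [hsplit]
  rw [ex_sum]
  refine Finset.sum_nonneg fun N hN => ?_
  have hv : v ∉ N := by
    intro h
    have := Finset.mem_powerset.1 hN h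
    simp at this
  rw [ex_sub, ex_mul_left, ex_mul_left, ex_sum, sub_nonneg]
  set q := ex (pw P τ) (fun ω => if nb ω v = N then (1 : ℝ) else 0) with hq
  have hq0 : 0 ≤ q := ex_nonneg h0 h1 fun ω => by split_ifs <;> norm_num
  have hb : ∀ A ∈ N.powerset,
      ex (pw P τ) (fun ω => (if nb ω v = N then 1 else 0) * Real.exp (-(1 / 2) * M ω N A)) ≤
        q * Real.exp (-(1 - Real.exp (-(1 / 2))) *
          ((1 / 4) * (sN (pw P τ) N - P * 3 ^ D * N.card))) := by
    intro A _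
    refine (exp_moment h0 h1 (1 / 2) v N A hv).trans ?_
    refine mul_le_mul_of_nonneg_left (Real.exp_le_exp.2 ?_) hq0
    have h2 := eA_ge hP τ N A
    have h3 : 0 ≤ 1 - Real.exp (-(1 / 2)) := by
      have : Real.exp (-(1 / 2)) ≤ 1 := Real.exp_le_one_iff.2 (by norm_num)
      linarith
    nlinarith [mul_le_mul_of_nonneg_left h2 h3]
  have hsum := Finset.sum_le_sum hb
  rw [Finset.sum_const, Finset.card_powerset, nsmul_eq_mul] at hsum
  have hexp : Real.exp ((1 / 2) * aN P τ N) * ((2 ^ N.card : ℕ) * (q * Real.exp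
      (-(1 - Real.exp (-(1 / 2))) * ((1 / 4) * (sN (pw P τ) N - P * 3 ^ D * N.card))))) = q := by
    have h2 : ((2 ^ N.card : ℕ) : ℝ) = Real.exp (N.card * Real.log 2) := by
      rw [mul_comm, Real.exp_mul, Real.exp_log (by norm_num)]
      push_cast
      rw [Real.rpow_natCast]
    rw [h2]
    have h3 : Real.exp ((1 / 2) * aN P τ N) * (Real.exp (N.card * Real.log 2) * (q * Real.exp
      (-(1 - Real.exp (-(1 / 2))) * ((1 / 4) * (sN (pw P τ) N - P * 3 ^ D * N.card))))) =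
      q * Real.exp ((1 / 2) * aN P τ N + N.card * Real.log 2 +
      (-(1 - Real.exp (-(1 / 2))) * ((1 / 4) * (sN (pw P τ) N - P * 3 ^ D * N.card)))) := by
      rw [Real.exp_add, Real.exp_add]; ring
    rw [h3]
    have h4 : (1 / 2) * aN P τ N + N.card * Real.log 2 +
      (-(1 - Real.exp (-(1 / 2))) * ((1 / 4) * (sN (pw P τ) N - P * 3 ^ D * N.card))) = 0 := by
      unfold aN; ring
    rw [h4, Real.exp_zero, mul_one]
  have h5 := mul_le_mul_of_nonneg_left hsum (Real.exp_pos ((1 / 2) * aN P τ N)).le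
  rw [hexp] at h5
  linarith

end Pool.Agent.R71.Link
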