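import Pool.Agent.R71.Expect

set_option autoImplicit false
set_option linter.unusedSectionVars false

/-! There is a graph without copies of `H₀` (the complement of `P₂ ∪ P₃`) such that every
2-colouring of its edges has a monochromatic triangle. -/

namespace Pool.Agent.R71.Main

open Finset Rand Kernel Link Count Expect

theorem S2_eq (D b : ℕ) :
    S2 (fun v : (Fin D → Bool) × Fin b => v.1) = (b : ℝ) ^ 2 * 10 ^ D := by
  rw [← sum2]
  have h := Fintype.sum_equiv (finTwoArrowEquiv ((Fin D → Bool) × Fin b)).symm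
    (fun q => W q.1.1 q.2.1)
    (fun φ : Fin 2 → (Fin D → Bool) × Fin b => ∏ j, W (φ (L2 j).1).1 (φ (L2 j).2).1)
    (fun q => by rw [Fin.prod_univ_one]; rfl)
  rw [← h, Fintype.sum_prod_type]
  rfl

/-- functions on `Fin 3` -/
def e3 (V : Type*) : (V × V × V) ≃ (Fin 3 → V) where
  toFun q := ![q.1, q.2.1, q.2.2]
  invFun φ := (φ 0, φ 1, φ 2)
  left_inv q := rfl
  right_inv φ := by ext i; fin_cases i <;> rfl

theorem S3_eq (D b : ℕ) :
    S3 (fun v : (Fin D → Bool) × Fin b => v.1) = (b : ℝ) ^ 3 * 126 ^ D := by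
  rw [← sum3]
  have h := Fintype.sum_equiv (e3 ((Fin D → Bool) × Fin b))
    (fun q => W q.1.1 q.2.1.1 * W q.2.1.1 q.2.2.1 * W q.1.1 q.2.2.1)
    (fun φ : Fin 3 → (Fin D → Bool) × Fin b => ∏ j, W (φ (L3 j).1).1 (φ (L3 j).2).1)
    (fun q => by rw [Fin.prod_univ_three]; rfl)
  rw [← h, Fintype.sum_prod_type]
  refine Finset.sum_congr rfl fun x _ => ?_
  exact (Fintype.sum_prod_type (fun q : ((Fin D → Bool) × Fin b) × ((Fin D → Bool) × Fin b) =>
    W x.1 q.1.1 * W q.1.1 q.2.1 * W x.1 q.2.1)).symm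

theorem S6_eq (D b : ℕ) :
    S6 (fun v : (Fin D → Bool) × Fin b => v.1) = (b : ℝ) ^ 6 * 251550 ^ D := by
  rw [← sum6]
  rfl

/-- the expectation of the difference is positive, so a good outcome exists -/
theorem exists_outcome (D b : ℕ) (P : ℝ) (hP : 0 ≤ P) (hP1 : P * 3 ^ D ≤ 1)
    (hineq : 0 < P ^ 3 * ((b : ℝ) ^ 3 * 126 ^ D) / 48 -
      (9 / 16) * (2 ^ D * (b : ℝ)) ^ 2 * (P * 3 ^ D) ^ 3 - (33 / 20) * (P * ((b : ℝ) ^ 2 * 10 ^ D)) -
      2 * (P ^ 9 * ((b : ℝ) ^ 6 * 251550 ^ D)) - 6 * (2 ^ D * (b : ℝ)) ^ 5 * (P * 3 ^ D) ^ 8) :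
    ∃ ω : Sym2 ((Fin D → Bool) × Fin b) → Bool,
      T ω / 6 + 2 * Dd ω < ∑ v, R P (fun v : (Fin D → Bool) × Fin b => v.1) ω (nb ω v) := by
  set τ : (Fin D → Bool) × Fin b → Fin D → Bool := fun v => v.1 with hτ
  have h0 : ∀ e, 0 ≤ pw P τ e := pw_nonneg hP τ
  have h1 : ∀ e, pw P τ e ≤ 1 := fun e => (pw_le hP τ e).trans hP1
  have hcard : (Fintype.card ((Fin D → Bool) × Fin b) : ℝ) = 2 ^ D * b := by
    simp
  have hY : ex (pw P τ) (fun ω => ∑ v, aN P τ (nb ω v)) ≤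
      ex (pw P τ) (fun ω => ∑ v, R P τ ω (nb ω v)) := by
    rw [ex_sum, ex_sum]
    exact Finset.sum_le_sum fun v _ => ex_R_ge hP τ hP1 v
  have hS := ex_sN_ge τ hP
  have hC := ex_card_le τ hP
  have hC0 := ex_card_nonneg τ hP hP1
  have hT := ex_T_le τ hP
  have hD := ex_Dd_le τ hP hP1
  rw [S3_eq, hcard] at hS
  rw [S2_eq] at hC
  rw [S3_eq] at hT
  rw [S6_eq, hcard] at hD
  set s := ex (pw P τ) (fun ω => ∑ v, sN (pw P τ) (nb ω v)) with hs
  set q := ex (pw P τ) (fun ω => ∑ v, ((nb ω v).card : ℝ)) with hq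
  have hs0 : 0 ≤ s := by
    refine ex_nonneg h0 h1 fun ω => Finset.sum_nonneg fun v _ => Finset.sum_nonneg fun e _ => h0 _
  -- the value of the sum of `aN`
  have hval : ex (pw P τ) (fun ω => ∑ v, aN P τ (nb ω v)) =
      (1 / 2) * (1 - Real.exp (-(1 / 2))) * s -
        ((1 / 2) * (1 - Real.exp (-(1 / 2))) * (P * 3 ^ D) + 2 * Real.log 2) * q := by
    have e : ∀ ω : Sym2 ((Fin D → Bool) × Fin b) → Bool, ∑ v, aN P τ (nb ω v) =
        ((1 / 2) * (1 - Real.exp (-(1 / 2)))) * (∑ v, sN (pw P τ) (nb ω v)) -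
        ((1 / 2) * (1 - Real.exp (-(1 / 2))) * (P * 3 ^ D) + 2 * Real.log 2) *
          ∑ v, ((nb ω v).card : ℝ) := by
      intro ω
      rw [Finset.mul_sum, Finset.mul_sum, ← Finset.sum_sub_distrib]
      refine Finset.sum_congr rfl fun v _ => ?_
      unfold aN
      ring
    simp_rw [e]
    rw [ex_sub, ex_mul_left, ex_mul_left]
  have hlog : Real.log 2 ≤ 0.7 := by
    have := Real.log_two_lt_d9
    linarith
  have hexp1 : Real.exp (-(1 / 2)) ≤ 5 / 8 := by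
    have h1 : (8 / 5 : ℝ) ≤ Real.exp (1 / 2) := by
      have h2 : Real.exp (1 / 2) * Real.exp (1 / 2) = Real.exp 1 := by
        rw [← Real.exp_add]; norm_num
      have h3 := Real.exp_one_gt_d9
      have h4 := Real.exp_pos (1 / 2)
      nlinarith
    rw [Real.exp_neg]
    rw [inv_le_comm₀ (Real.exp_pos _) (by norm_num)]
    linarith
  have hexp2 : 1 / 2 ≤ Real.exp (-(1 / 2)) := by
    have := Real.add_one_le_exp (-(1 / 2) : ℝ)
    linarith
  have hP3 : 0 ≤ P * 3 ^ D := by positivity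
  have hpos : 0 < ex (pw P τ) (fun ω => (∑ v, R P τ ω (nb ω v)) - (T ω / 6 + 2 * Dd ω)) := by
    rw [ex_sub, ex_add, ex_mul_left]
    have hT6 : ex (pw P τ) (fun ω => T ω / 6) = (1 / 6) * ex (pw P τ) (fun ω => T ω) := by
      rw [← ex_mul_left]
      congr 1
      funext ω
      ring
    rw [hT6]
    have e1 : (3 / 16) * s ≤ (1 / 2) * (1 - Real.exp (-(1 / 2))) * s := by
      nlinarith
    have e2 : ((1 / 2) * (1 - Real.exp (-(1 / 2))) * (P * 3 ^ D) + 2 * Real.log 2) * q ≤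
        (33 / 20) * q := by
      refine mul_le_mul_of_nonneg_right ?_ hC0
      nlinarith
    rw [hval] at hY
    nlinarith
  obtain ⟨ω, hω⟩ := exists_pos h0 h1 hpos
  exact ⟨ω, by linarith⟩

/-- a good outcome gives an arrowing graph -/
theorem arrow_of_outcome {V : Type*} [Fintype V] [DecidableEq V] {D : ℕ} (P : ℝ)
    (τ : V → Fin D → Bool) (ω : Sym2 V → Bool)
    (h : T ω / 6 + 2 * Dd ω < ∑ v, R P τ ω (nb ω v)) (c : V → V → Bool)
    (hc : ∀ x y, (G' ω).Adj x y → c x y = c y x) :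
    ∃ x y z, (G' ω).Adj x y ∧ (G' ω).Adj y z ∧ (G' ω).Adj x z ∧ c x y = c y z ∧
      c y z = c x z := by
  classical
  by_contra hcon
  push Not at hcon
  set c' : V → V → Bool := fun x y => if (G' ω).Adj x y then c x y else true with hc'
  have hc's : ∀ x y, c' x y = c' y x := by
    intro x y
    simp only [hc']
    by_cases hxy : (G' ω).Adj x y
    · rw [if_pos hxy, if_pos hxy.symm, hc x y hxy]
    · rw [if_neg hxy, if_neg (fun h => hxy h.symm)]
  have hk := key ω c' hc's (by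
    intro x y z h1 h2 h3 h4
    simp only [hc', if_pos h1, if_pos h2, if_pos h3] at h4
    exact hcon x y z h1 h2 h3 h4.1 h4.2)
  have hR : ∑ v, R P τ ω (nb ω v) ≤
      ∑ v, M ω (nb ω v) ((nb ω v).filter fun y => c' v y = true) :=
    Finset.sum_le_sum fun v _ => R_le_M P τ ω _ _ (Finset.filter_subset _ _)
  linarith

/-- the parameters can be chosen -/
theorem exists_params : ∃ (D b : ℕ) (P : ℝ), 0 ≤ P ∧ P * 3 ^ D ≤ 1 ∧
    0 < P ^ 3 * ((b : ℝ) ^ 3 * 126 ^ D) / 48 -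
      (9 / 16) * (2 ^ D * (b : ℝ)) ^ 2 * (P * 3 ^ D) ^ 3 - (33 / 20) * (P * ((b : ℝ) ^ 2 * 10 ^ D)) -
      2 * (P ^ 9 * ((b : ℝ) ^ 6 * 251550 ^ D)) - 6 * (2 ^ D * (b : ℝ)) ^ 5 * (P * 3 ^ D) ^ 8 := by
  obtain ⟨D, hD⟩ := exists_pow_lt_of_lt_one (show (0 : ℝ) < 1 / 4000000000 by norm_num)
    (show (25155 / (63 / 5) ^ 4 : ℝ) < 1 by norm_num)
  set C1 : ℝ := (9 / 16) * (54 / 5) ^ D with hC1
  set C2 : ℝ := 6 * (104976 / 5) ^ D * (100 / (63 / 5) ^ D) ^ 3 with hC2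
  have hC1p : 0 < C1 := by positivity
  have hC2p : 0 < C2 := by positivity
  set ε : ℝ := min (min 1 (1 / 3 ^ D)) (min (1 / (10 * C1)) (1 / (10 * C2))) with hε
  have hε0 : 0 < ε := by
    simp only [hε, lt_min_iff]
    refine ⟨⟨by norm_num, by positivity⟩, by positivity, by positivity⟩
  have hε1 : ε ≤ 1 := (min_le_left _ _).trans (min_le_left _ _)
  have hε2 : ε ≤ 1 / 3 ^ D := (min_le_left _ _).trans (min_le_right _ _)
  have hε3 : ε ≤ 1 / (10 * C1) := (min_le_right _ _).trans (min_le_left _ _)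
  have hε4 : ε ≤ 1 / (10 * C2) := (min_le_right _ _).trans (min_le_right _ _)
  obtain ⟨b, hb⟩ := exists_nat_ge (100 / ((63 / 5) ^ D * ε ^ 2) + 1)
  have hb0 : (0 : ℝ) < b := by
    have : 0 < 100 / ((63 / 5) ^ D * ε ^ 2) + 1 := by positivity
    linarith
  set P : ℝ := Real.sqrt (100 / (b * (63 / 5) ^ D)) with hP
  have hPpos : 0 < P := Real.sqrt_pos.2 (by positivity)
  have hPsq : P ^ 2 = 100 / (b * (63 / 5) ^ D) := Real.sq_sqrt (by positivity)
  have hPε : P ≤ ε := by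
    refine Real.sqrt_le_iff.2 ⟨hε0.le, ?_⟩
    rw [div_le_iff₀ (by positivity)]
    have h1 : 100 / ((63 / 5) ^ D * ε ^ 2) ≤ b := by linarith
    rw [div_le_iff₀ (by positivity)] at h1
    nlinarith
  have hbP : (b : ℝ) * P ^ 2 = 100 / (63 / 5) ^ D := by
    rw [hPsq]; field_simp
  refine ⟨D, b, P, hPpos.le, ?_, ?_⟩
  · have h1 : P ≤ 1 / 3 ^ D := hPε.trans hε2
    rw [le_div_iff₀ (by positivity)] at h1
    exact h1
  · set E : ℝ := P * ((b : ℝ) ^ 2 * 10 ^ D) with hE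
    have hEpos : 0 < E := by positivity
    -- the four terms in units of `E`
    have f1 : P ^ 3 * ((b : ℝ) ^ 3 * 126 ^ D) = 100 * E := by
      have e1 : (126 : ℝ) ^ D = 10 ^ D * (63 / 5) ^ D := by rw [← mul_pow]; norm_num
      calc P ^ 3 * ((b : ℝ) ^ 3 * 126 ^ D) = E * (b * P ^ 2) * (63 / 5) ^ D := by
            rw [e1, hE]; ring
        _ = 100 * E := by rw [hbP]; field_simp
    have f2 : (9 / 16) * (2 ^ D * (b : ℝ)) ^ 2 * (P * 3 ^ D) ^ 3 = C1 * P ^ 2 * E := by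
      have e1 : ((2 : ℝ) ^ D) ^ 2 * (3 ^ D) ^ 3 = 10 ^ D * (54 / 5) ^ D := by
        rw [← pow_mul, ← pow_mul, mul_comm D 2, mul_comm D 3, pow_mul, pow_mul, ← mul_pow,
          ← mul_pow]
        norm_num
      calc (9 / 16) * (2 ^ D * (b : ℝ)) ^ 2 * (P * 3 ^ D) ^ 3 =
            (9 / 16) * (((2 : ℝ) ^ D) ^ 2 * (3 ^ D) ^ 3) * (b : ℝ) ^ 2 * P ^ 3 := by ring
        _ = C1 * P ^ 2 * E := by rw [e1, hC1, hE]; ring
    have f3 : P ^ 9 * ((b : ℝ) ^ 6 * 251550 ^ D) =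
        100000000 * (25155 / (63 / 5) ^ 4) ^ D * E := by
      have e1 : (251550 : ℝ) ^ D = 10 ^ D * 25155 ^ D := by rw [← mul_pow]; norm_num
      calc P ^ 9 * ((b : ℝ) ^ 6 * 251550 ^ D) = E * (b * P ^ 2) ^ 4 * 25155 ^ D := by
            rw [e1, hE]; ring
        _ = 100000000 * (25155 / (63 / 5) ^ 4) ^ D * E := by
            have e2 : (25155 / (63 / 5) ^ 4 : ℝ) ^ D = 25155 ^ D / ((63 / 5) ^ D) ^ 4 := by
              rw [div_pow, ← pow_mul, ← pow_mul, mul_comm 4 D]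
            rw [hbP, e2]
            have e3 : ((63 / 5 : ℝ)) ^ D ≠ 0 := by positivity
            generalize ((63 / 5 : ℝ)) ^ D = y at e3
            field_simp
            norm_num
    have f4 : 6 * (2 ^ D * (b : ℝ)) ^ 5 * (P * 3 ^ D) ^ 8 = C2 * P * E := by
      have e1 : ((2 : ℝ) ^ D) ^ 5 * (3 ^ D) ^ 8 = 10 ^ D * (104976 / 5) ^ D := by
        rw [← pow_mul, ← pow_mul, mul_comm D 5, mul_comm D 8, pow_mul, pow_mul, ← mul_pow,
          ← mul_pow]
        norm_num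
      calc 6 * (2 ^ D * (b : ℝ)) ^ 5 * (P * 3 ^ D) ^ 8 =
            6 * (((2 : ℝ) ^ D) ^ 5 * (3 ^ D) ^ 8) * (b : ℝ) ^ 5 * P ^ 8 := by ring
        _ = 6 * (10 ^ D * (104976 / 5) ^ D) * (b ^ 2 * (b * P ^ 2) ^ 3 * (P * P)) := by
            rw [e1]; ring
        _ = C2 * P * E := by rw [hbP, hC2, hE]; ring
    rw [f1, f2, f3, f4]
    have g1 : C1 * P ^ 2 ≤ 1 / 10 := by
      have h1 : P ^ 2 ≤ ε := by nlinarith
      have h2 : C1 * ε ≤ 1 / 10 := by
        calc C1 * ε ≤ C1 * (1 / (10 * C1)) := mul_le_mul_of_nonneg_left hε3 hC1p.le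
          _ = 1 / 10 := by field_simp
      nlinarith
    have g2 : C2 * P ≤ 1 / 10 := by
      calc C2 * P ≤ C2 * (1 / (10 * C2)) :=
            mul_le_mul_of_nonneg_left (hPε.trans hε4) hC2p.le
        _ = 1 / 10 := by field_simp
    have g3 : 100000000 * (25155 / (63 / 5) ^ 4 : ℝ) ^ D ≤ 1 / 40 := by
      linarith
    have k1 := mul_le_mul_of_nonneg_right g1 hEpos.le
    have k2 := mul_le_mul_of_nonneg_right g2 hEpos.le
    have k3 := mul_le_mul_of_nonneg_right g3 hEpos.le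
    generalize C1 * P ^ 2 * E = a1 at k1 ⊢
    generalize C2 * P * E = a2 at k2 ⊢
    generalize 100000000 * (25155 / (63 / 5) ^ 4 : ℝ) ^ D * E = a3 at k3 ⊢
    linarith

/-- **Theorem.** There is a finite graph `G` which contains no copy of the graph with the edges `L5`
(that is `K_{2,3}` with an edge in the larger class) and such that every 2-colouring of the edges of
`G` has a monochromatic triangle. -/
theorem main : ∃ (n : ℕ) (G : SimpleGraph (Fin n)),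
    (∀ c : Fin n → Fin n → Bool, (∀ x y, G.Adj x y → c x y = c y x) →
      ∃ x y z, G.Adj x y ∧ G.Adj y z ∧ G.Adj x z ∧ c x y = c y z ∧ c y z = c x z) ∧
    ∀ f : Fin 5 → Fin n, Function.Injective f →
      ¬ ∀ j, G.Adj (f (L5 j).1) (f (L5 j).2) := by
  obtain ⟨D, b, P, hP, hP1, hineq⟩ := exists_params
  obtain ⟨ω, hω⟩ := exists_outcome D b P hP hP1 hineq
  set e := Fintype.equivFin ((Fin D → Bool) × Fin b) with he
  refine ⟨Fintype.card ((Fin D → Bool) × Fin b), (G' ω).comap e.symm, ?_, ?_⟩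
  · intro c hc
    obtain ⟨x, y, z, h1, h2, h3, h4, h5⟩ := arrow_of_outcome P _ ω hω
      (fun x y => c (e x) (e y)) (fun x y hxy => hc (e x) (e y) (by simpa using hxy))
    refine ⟨e x, e y, e z, by simpa using h1, by simpa using h2, by simpa using h3, h4, h5⟩
  · intro f hf h
    exact G'_free ω (fun i => e.symm (f i)) (e.symm.injective.comp hf) (fun j => by
      simpa using h j)

end Pool.Agent.R71.Main
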