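import Mathlib

set_option autoImplicit false

/-! Expectations over independent bits `ω e`, `e : E`, with `P(ω e = true) = p e`. -/

namespace Pool.Agent.R71.Rand

open Finset

set_option linter.unusedSectionVars false

variable {E : Type*} [Fintype E] [DecidableEq E]

/-- weight of an outcome -/
noncomputable def wt (p : E → ℝ) (ω : E → Bool) : ℝ := ∏ e, (if ω e then p e else 1 - p e)

/-- expectation -/
noncomputable def ex (p : E → ℝ) (F : (E → Bool) → ℝ) : ℝ := ∑ ω, wt p ω * F ω

theorem wt_nonneg {p : E → ℝ} (h0 : ∀ e, 0 ≤ p e) (h1 : ∀ e, p e ≤ 1) (ω : E → Bool) :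
    0 ≤ wt p ω := by
  unfold wt
  refine Finset.prod_nonneg fun e _ => ?_
  split_ifs
  · exact h0 e
  · linarith [h1 e]

theorem ex_prod_univ (p : E → ℝ) (g : E → Bool → ℝ) :
    ex p (fun ω => ∏ e, g e (ω e)) = ∏ e, (p e * g e true + (1 - p e) * g e false) := by
  unfold ex wt
  simp_rw [← Finset.prod_mul_distrib]
  have := Finset.prod_univ_sum (fun _ : E => (Finset.univ : Finset Bool))
    (fun e b => (if b then p e else 1 - p e) * g e b)
  rw [Fintype.piFinset_univ] at this
  rw [← this]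
  simp

theorem ex_prod (p : E → ℝ) (s : Finset E) (g : E → Bool → ℝ) :
    ex p (fun ω => ∏ e ∈ s, g e (ω e)) = ∏ e ∈ s, (p e * g e true + (1 - p e) * g e false) := by
  have h := ex_prod_univ p (fun e b => if e ∈ s then g e b else 1)
  have h1 : ∀ ω : E → Bool, (∏ e, if e ∈ s then g e (ω e) else 1) = ∏ e ∈ s, g e (ω e) := by
    intro ω
    rw [Finset.prod_ite_mem, Finset.univ_inter]
  simp_rw [h1] at h
  rw [h]
  have h2 : ∀ e : E, (p e * (if e ∈ s then g e true else 1) +
      (1 - p e) * (if e ∈ s then g e false else 1)) =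
      if e ∈ s then (p e * g e true + (1 - p e) * g e false) else 1 := by
    intro e
    split_ifs <;> ring
  simp_rw [h2]
  rw [Finset.prod_ite_mem, Finset.univ_inter]

theorem ex_one (p : E → ℝ) : ex p (fun _ => 1) = 1 := by
  have := ex_prod p ∅ (fun _ _ => 1)
  simpa using this

theorem ex_add (p : E → ℝ) (F G : (E → Bool) → ℝ) :
    ex p (fun ω => F ω + G ω) = ex p F + ex p G := by
  unfold ex
  rw [← Finset.sum_add_distrib]
  exact Finset.sum_congr rfl fun ω _ => by ring

theorem ex_sub (p : E → ℝ) (F G : (E → Bool) → ℝ) :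
    ex p (fun ω => F ω - G ω) = ex p F - ex p G := by
  unfold ex
  rw [← Finset.sum_sub_distrib]
  exact Finset.sum_congr rfl fun ω _ => by ring

theorem ex_mul_left (p : E → ℝ) (c : ℝ) (F : (E → Bool) → ℝ) :
    ex p (fun ω => c * F ω) = c * ex p F := by
  unfold ex
  rw [Finset.mul_sum]
  exact Finset.sum_congr rfl fun ω _ => by ring

theorem ex_const (p : E → ℝ) (c : ℝ) : ex p (fun _ => c) = c := by
  have h1 := ex_mul_left p c (fun _ => 1)
  rw [ex_one] at h1
  simpa using h1

theorem ex_sum (p : E → ℝ) {ι : Type*} (s : Finset ι) (F : ι → (E → Bool) → ℝ) :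
    ex p (fun ω => ∑ i ∈ s, F i ω) = ∑ i ∈ s, ex p (F i) := by
  unfold ex
  simp_rw [Finset.mul_sum]
  exact Finset.sum_comm

theorem ex_mono {p : E → ℝ} (h0 : ∀ e, 0 ≤ p e) (h1 : ∀ e, p e ≤ 1) {F G : (E → Bool) → ℝ}
    (h : ∀ ω, F ω ≤ G ω) : ex p F ≤ ex p G := by
  unfold ex
  exact Finset.sum_le_sum fun ω _ => mul_le_mul_of_nonneg_left (h ω) (wt_nonneg h0 h1 ω)

theorem ex_nonneg {p : E → ℝ} (h0 : ∀ e, 0 ≤ p e) (h1 : ∀ e, p e ≤ 1) {F : (E → Bool) → ℝ}
    (h : ∀ ω, 0 ≤ F ω) : 0 ≤ ex p F := by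
  unfold ex
  exact Finset.sum_nonneg fun ω _ => mul_nonneg (wt_nonneg h0 h1 ω) (h ω)

/-- if the expectation is positive, some outcome is positive -/
theorem exists_pos {p : E → ℝ} (h0 : ∀ e, 0 ≤ p e) (h1 : ∀ e, p e ≤ 1) {F : (E → Bool) → ℝ}
    (h : 0 < ex p F) : ∃ ω, 0 < F ω := by
  by_contra hcon
  push Not at hcon
  have : ex p F ≤ ex p (fun _ => 0) := ex_mono h0 h1 hcon
  rw [ex_const] at this
  linarith

/-- independence of disjoint sets of bits, in the form we need -/
theorem ex_prod_mul_prod (p : E → ℝ) (s t : Finset E) (hst : Disjoint s t) (g h : E → Bool → ℝ) :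
    ex p (fun ω => (∏ e ∈ s, g e (ω e)) * ∏ e ∈ t, h e (ω e)) =
      ex p (fun ω => ∏ e ∈ s, g e (ω e)) *
        ∏ e ∈ t, (p e * h e true + (1 - p e) * h e false) := by
  have h1 : ∀ ω : E → Bool, (∏ e ∈ s, g e (ω e)) * ∏ e ∈ t, h e (ω e) =
      ∏ e ∈ s ∪ t, (if e ∈ s then g e (ω e) else h e (ω e)) := by
    intro ω
    rw [Finset.prod_union hst]
    congr 1
    · exact Finset.prod_congr rfl fun e he => by rw [if_pos he]
    · refine Finset.prod_congr rfl fun e he => ?_
      rw [if_neg (Finset.disjoint_right.1 hst he)]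
  simp_rw [h1]
  rw [ex_prod p (s ∪ t) (fun e b => if e ∈ s then g e b else h e b), Finset.prod_union hst,
    ex_prod p s g]
  congr 1
  · exact Finset.prod_congr rfl fun e he => by rw [if_pos he, if_pos he]
  · refine Finset.prod_congr rfl fun e he => ?_
    rw [if_neg (Finset.disjoint_right.1 hst he), if_neg (Finset.disjoint_right.1 hst he)]

/-- the value of a bit, as a real number -/
def ind (b : Bool) : ℝ := if b then 1 else 0

theorem ind_nonneg (b : Bool) : 0 ≤ ind b := by unfold ind; split_ifs <;> norm_num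

theorem ind_le_one (b : Bool) : ind b ≤ 1 := by unfold ind; split_ifs <;> norm_num

@[simp] theorem ind_true : ind true = 1 := rfl
@[simp] theorem ind_false : ind false = 0 := rfl

/-- the probability that some different bits are all `true` -/
theorem ex_prod_ind (p : E → ℝ) {ι : Type*} (s : Finset ι) (ψ : ι → E) (hψ : Set.InjOn ψ s) :
    ex p (fun ω => ∏ i ∈ s, ind (ω (ψ i))) = ∏ i ∈ s, p (ψ i) := by
  have h1 : ∀ ω : E → Bool, ∏ i ∈ s, ind (ω (ψ i)) = ∏ e ∈ s.image ψ, ind (ω e) := by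
    intro ω
    rw [Finset.prod_image hψ]
  simp_rw [h1]
  rw [ex_prod p (s.image ψ) (fun _ b => ind b), Finset.prod_image hψ]
  exact Finset.prod_congr rfl fun e _ => by simp

end Pool.Agent.R71.Rand
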